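import Pool.Agent.Run7.h646.GH.Rgs

/-!
# Graph hypersurfaces: piece `PCut`
-/

set_option autoImplicit false
set_option linter.unusedVariables false
set_option linter.unusedSectionVars false

open CategoryTheory AlgebraicGeometry MvPolynomial Pool.Agent.Y116.UV Pool.Agent.Z125.UN
  Pool.Agent.Q282.UZ

namespace Run7.h646.GH

open Run7.h570.GH Matrix

section ker

variable {V : Type} [Fintype V] [DecidableEq V] {c : ℕ} {K : Type} [Field K]

theorem ind_mulVec_apply (C : Fin c → V) (w : V → K) (l : V) :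
    (ind C *ᵥ w) l = open Classical in if l ∈ Set.range C then w l else 0 := by
  classical
  rw [ind, Matrix.mulVec_diagonal]
  by_cases h : l ∈ Set.range C <;> simp [h]

theorem ind_mulVec_zero (C : Fin c → V) (w : V → K) (h : ∀ b, w (C b) = 0) :
    ind C *ᵥ w = 0 := by
  classical
  funext l
  rw [ind_mulVec_apply]
  split_ifs with hl
  · obtain ⟨b, rfl⟩ := hl
    exact h b
  · rfl

theorem ind_mulVec_u (C : Fin c → V) (u : Fin c → V → K)
    (hd : ∀ a b, u a (C b) = if a = b then 1 else 0) (a : Fin c) :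
    ind C *ᵥ (u a) = Pi.single (C a) 1 := by
  classical
  funext l
  rw [ind_mulVec_apply]
  split_ifs with hl
  · obtain ⟨b, rfl⟩ := hl
    rw [hd]
    by_cases hab : a = b
    · subst hab; simp
    · have : C b ≠ C a := by
        intro h
        have h1 := hd a b
        rw [h, hd a a, if_pos rfl, if_neg hab] at h1
        exact one_ne_zero h1
      rw [if_neg hab, Pi.single_eq_of_ne this]
  · have : l ≠ C a := fun h => hl ⟨a, h.symm⟩
    rw [Pi.single_eq_of_ne this]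

theorem D_sym {C : Fin c → V} {M : Matrix V V K} (hs : ∀ i j, M i j = M j i) :
    ∀ i j, (M + ind C : Matrix V V K) i j = (M + ind C : Matrix V V K) j i := by
  intro i j
  rw [Matrix.add_apply, Matrix.add_apply, hs i j]
  congr 1
  simp only [ind, Matrix.diagonal_apply]
  by_cases h : i = j
  · subst h; rfl
  · rw [if_neg h, if_neg (Ne.symm h)]

theorem ker_D {C : Fin c → V} {M : Matrix V V K} {u : Fin c → V → K}
    (hs : ∀ i j, M i j = M j i) (hm : ∀ a, M *ᵥ (u a) = 0)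
    (hd : ∀ a b, u a (C b) = if a = b then 1 else 0) (w : V → K) (hw : (M + ind C) *ᵥ w = 0) :
    (∀ a, w (C a) = 0) ∧ M *ᵥ w = 0 := by
  have hsD := D_sym (C := C) hs
  have h1 : ∀ a, w (C a) = 0 := by
    intro a
    have h2 : u a ⬝ᵥ ((M + ind C) *ᵥ w) = 0 := by rw [hw]; simp
    rw [sym_dot hsD, Matrix.add_mulVec, hm a, zero_add, ind_mulVec_u C u hd a] at h2
    simpa using h2
  refine ⟨h1, ?_⟩
  rw [Matrix.add_mulVec, ind_mulVec_zero C w h1, add_zero] at hw
  exact hw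

theorem D_of_ker {C : Fin c → V} {M : Matrix V V K} {w : V → K} (h1 : M *ᵥ w = 0)
    (h2 : ∀ b, w (C b) = 0) : (M + ind C) *ᵥ w = 0 := by
  rw [Matrix.add_mulVec, h1, ind_mulVec_zero C w h2, add_zero]

end ker

section rep

variable {R : Type} [CommRing R]

theorem rep_comp {σ σ' : Type} {S : Fam R σ} (m : σ → σ') (h : Rep S) :
    Rep (R := R) (fun K _ _ (x : σ' → K) => S K fun s => x (m s)) := by
  obtain ⟨κ, G, w, hw⟩ := h
  refine ⟨κ, fun k => rename m (G k), rename m w, fun K _ _ x => ?_⟩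
  simp only [aeval_rename]
  exact hw K _

variable {V : Type} [Fintype V] [DecidableEq V] {c : ℕ}

/-- the matrix of coordinates of `PairFam (LineFam …)` -/
abbrev CL (V : Type) (c : ℕ) : Type := (((V × V) ⊕ (Fin c × V)) ⊕ V) ⊕ V

def mL {K : Type} (x : CL V c → K) : Matrix V V K :=
  Matrix.of fun i j => x (Sum.inl (Sum.inl (Sum.inl (i, j))))

def uL {K : Type} (x : CL V c → K) : Fin c → V → K :=
  fun a l => x (Sum.inl (Sum.inl (Sum.inr (a, l))))

def vL {K : Type} (x : CL V c → K) : V → K := fun l => x (Sum.inl (Sum.inr l))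

def bL {K : Type} (x : CL V c → K) : V → K := fun l => x (Sum.inr l)

/-- the data of a point of `PairFam (LineFam …)` -/
structure LDat {K : Type} [Field K] (G : SimpleGraph V) (C : Fin c → V) (τ : V → ℕ) (J : Finset V)
    (M : Matrix V V K) (u : Fin c → V → K) (v b : V → K) : Prop where
  b0 : ∀ l, l ∉ J → b l = 0
  pat : Pat G M
  mu : ∀ a, M *ᵥ (u a) = 0
  del : ∀ a b, u a (C b) = if a = b then 1 else 0
  flg : Flg τ u
  mv : M *ᵥ v = 0
  vC : ∀ b, v (C b) = 0
  bv : b ⬝ᵥ v = 1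

theorem line_iff (G : SimpleGraph V) (C : Fin c → V) (τ : V → ℕ) (J : Finset V)
    {K : Type} [Field K] [Algebra R K] (x : CL V c → K) :
    PairFam (LineFam R G C τ) J K x ↔
      LDat G C τ J (mL x) (uL x) (vL x) (bL x) ∧
        ∀ w, (mL x + ind C) *ᵥ w = 0 → ∃ t : K, w = t • vL x := by
  constructor
  · rintro ⟨⟨hp, hm, hd, hf, hv, hvC, hv0, hu⟩, hb, hbv⟩
    refine ⟨⟨hb, hp, hm, hd, hf, hv, hvC, hbv⟩, fun w hw => ?_⟩
    obtain ⟨h1, h2⟩ := ker_D (M := mL x) hp.1 hm hd w hw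
    exact hu w h2 h1
  · rintro ⟨⟨hb, hp, hm, hd, hf, hv, hvC, hbv⟩, hu⟩
    exact ⟨⟨hp, hm, hd, hf, hv, hvC, ne_zero_of_dot hbv,
      fun w hw hwC => hu w (D_of_ker hw hwC)⟩, hb, hbv⟩

theorem ldat_iff (G : SimpleGraph V) (C : Fin c → V) (τ : V → ℕ) (J : Finset V)
    {K : Type} [Field K] [Algebra R K] (x : CL V c → K) :
    PairFam (LineFam R G C τ) J K x ↔
      LDat G C τ J (mL x) (uL x) (vL x) (bL x) ∧
        (mL x + ind C + vecMulVec (bL x) (bL x)).det ≠ 0 := by
  rw [line_iff]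
  constructor
  · rintro ⟨h, hu⟩
    exact ⟨h, line_det (D_sym h.pat.1) (D_of_ker h.mv h.vC) h.bv hu⟩
  · rintro ⟨h, hu⟩
    exact ⟨h, fun w hw => ⟨_, line_of_det (D_of_ker h.mv h.vC) h.bv hu w hw⟩⟩

theorem rep_line (G : SimpleGraph V) (C : Fin c → V) (τ : V → ℕ) (J : Finset V) :
    Rep (PairFam (LineFam R G C τ) J) := by
  classical
  have h1 : Rep (R := R) (fun K _ _ (x : CL V c → K) => ∀ l, l ∉ J → bL x l = 0) :=
    rep_all fun l => rep_imp _ (rep_eqs (X (Sum.inr l)) 0 (fun K _ _ x => by simp [bL])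
      (fun K _ _ x => by simp))
  have h2 : Rep (R := R) (fun K _ _ (x : CL V c → K) => ∀ i j, mL x i j = mL x j i) :=
    rep_all fun i => rep_all fun j => rep_eqs (X (Sum.inl (Sum.inl (Sum.inl (i, j)))))
      (X (Sum.inl (Sum.inl (Sum.inl (j, i))))) (fun K _ _ x => by simp [mL])
      (fun K _ _ x => by simp [mL])
  have h3 : Rep (R := R) (fun K _ _ (x : CL V c → K) =>
      ∀ i j, i ≠ j → ¬ G.Adj i j → mL x i j = 0) :=
    rep_all fun i => rep_all fun j => rep_imp _ (rep_imp _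
      (rep_eqs (X (Sum.inl (Sum.inl (Sum.inl (i, j))))) 0 (fun K _ _ x => by simp [mL])
        (fun K _ _ x => by simp)))
  have h4 : Rep (R := R) (fun K _ _ (x : CL V c → K) => ∀ a i, (mL x *ᵥ uL x a) i = 0) :=
    rep_all fun a => rep_all fun i => rep_eqs
      (∑ j, X (Sum.inl (Sum.inl (Sum.inl (i, j)))) * X (Sum.inl (Sum.inl (Sum.inr (a, j))))) 0
      (fun K _ _ x => by simp [mL, uL, Matrix.mulVec, dotProduct]) (fun K _ _ x => by simp)
  have h5 : Rep (R := R) (fun K _ _ (x : CL V c → K) =>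
      ∀ a b, uL x a (C b) = if a = b then 1 else 0) :=
    rep_all fun a => rep_all fun b => rep_eqs (X (Sum.inl (Sum.inl (Sum.inr (a, C b)))))
      (if a = b then 1 else 0) (fun K _ _ x => by simp [uL])
      (fun K _ _ x => by split_ifs <;> simp)
  have h6 : Rep (R := R) (fun K _ _ (x : CL V c → K) =>
      ∀ (a : Fin c) l, τ l < a.1 + 1 → uL x a l = 0) :=
    rep_all fun a => rep_all fun l => rep_imp _ (rep_eqs (X (Sum.inl (Sum.inl (Sum.inr (a, l))))) 0
      (fun K _ _ x => by simp [uL]) (fun K _ _ x => by simp))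
  have h7 : Rep (R := R) (fun K _ _ (x : CL V c → K) =>
      ∀ (a : Fin c) l, τ l = a.1 + 1 → uL x a l ≠ 0) :=
    rep_all fun a => rep_all fun l => rep_imp _ (rep_nes (X (Sum.inl (Sum.inl (Sum.inr (a, l)))))
      (fun K _ _ x => by simp [uL]))
  have h8 : Rep (R := R) (fun K _ _ (x : CL V c → K) => ∀ i, (mL x *ᵥ vL x) i = 0) :=
    rep_all fun i => rep_eqs
      (∑ j, X (Sum.inl (Sum.inl (Sum.inl (i, j)))) * X (Sum.inl (Sum.inr j))) 0
      (fun K _ _ x => by simp [mL, vL, Matrix.mulVec, dotProduct]) (fun K _ _ x => by simp)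
  have h9 : Rep (R := R) (fun K _ _ (x : CL V c → K) => ∀ b, vL x (C b) = 0) :=
    rep_all fun b => rep_eqs (X (Sum.inl (Sum.inr (C b)))) 0 (fun K _ _ x => by simp [vL])
      (fun K _ _ x => by simp)
  have h10 : Rep (R := R) (fun K _ _ (x : CL V c → K) => bL x ⬝ᵥ vL x = 1) :=
    rep_eqs (∑ l, X (Sum.inr l) * X (Sum.inl (Sum.inr l))) 1
      (fun K _ _ x => by simp [bL, vL, dotProduct]) (fun K _ _ x => by simp)
  have h11 : Rep (R := R) (fun K _ _ (x : CL V c → K) =>
      (mL x + ind C + vecMulVec (bL x) (bL x)).det ≠ 0) := by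
    refine rep_nes (Matrix.det (Matrix.of (fun i j => (X (Sum.inl (Sum.inl (Sum.inl (i, j)))) :
      MvPolynomial (CL V c) R)) + ind C + vecMulVec (fun l => X (Sum.inr l))
        (fun l => X (Sum.inr l)))) (fun K _ _ x => ?_)
    rw [AlgHom.map_det, map_add, det_add_ind_map]
    congr 2
    ext i j
    simp [vecMulVec_apply, bL]
  refine rep_congr (fun K _ _ x => ?_) (rep_and h1 (rep_and h2 (rep_and h3 (rep_and h4 (rep_and h5
    (rep_and h6 (rep_and h7 (rep_and h8 (rep_and h9 (rep_and h10 h11))))))))))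
  rw [ldat_iff]
  constructor
  · rintro ⟨a1, a2, a3, a4, a5, a6, a7, a8, a9, a10, a11⟩
    exact ⟨⟨a1, ⟨a2, a3⟩, fun a => funext (a4 a), a5, ⟨a6, a7⟩, funext a8, a9, a10⟩, a11⟩
  · rintro ⟨⟨a1, ⟨a2, a3⟩, a4, a5, ⟨a6, a7⟩, a8, a9, a10⟩, a11⟩
    exact ⟨a1, a2, a3, fun a => congrFun (a4 a), a5, a6, a7, congrFun a8, a9, a10, a11⟩

end rep

section stepA

variable {R : Type} [CommRing R] {V : Type} [Fintype V] [DecidableEq V] {c : ℕ}

/-- the determinant of `M + ind C` -/
noncomputable def eP (R : Type) [CommRing R] (C : Fin c → V) :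
    MvPolynomial ((Option V × Option V) ⊕ (Fin c × Option V)) R :=
  (Matrix.of (fun i j => (X (Sum.inl (some i, some j)) :
    MvPolynomial ((Option V × Option V) ⊕ (Fin c × Option V)) R)) + ind C).det

theorem aeval_eP (C : Fin c → V) {K : Type} [Field K] [Algebra R K]
    (y : (Option V × Option V) ⊕ (Fin c × Option V) → K) :
    aeval y (eP R C) = (MM y + ind C).det := by
  rw [eP, AlgHom.map_det, det_add_ind_map]
  rfl

/-- extension by zero -/
def ez {K : Type} [Zero K] (J : Finset V) (y : J → K) : V → K :=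
  fun l => if h : l ∈ J then y ⟨l, h⟩ else 0

abbrev CA (V : Type) (c : ℕ) (J : Finset V) : Type := (((V × V) ⊕ (Fin c × V)) ⊕ J) ⊕ Unit

def mA {K : Type} {J : Finset V} (x : CA V c J → K) : Matrix V V K :=
  Matrix.of fun i j => x (Sum.inl (Sum.inl (Sum.inl (i, j))))

def uA {K : Type} {J : Finset V} (x : CA V c J → K) : Fin c → V → K :=
  fun a l => x (Sum.inl (Sum.inl (Sum.inr (a, l))))

def bA {K : Type} [Zero K] {J : Finset V} (x : CA V c J → K) : V → K :=
  ez J fun l => x (Sum.inl (Sum.inr l))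

noncomputable def fA {K : Type} [Field K] {J : Finset V} (C : Fin c → V) (x : CA V c J → K) :
    (Option V × Option V) ⊕ (Fin c × Option V) → K :=
  pt (x (Sum.inr ()) + bA x ⬝ᵥ ((mA x + ind C)⁻¹ *ᵥ bA x)) (bA x) (mA x) (uA x)

noncomputable def gA {K : Type} [Field K] (J : Finset V) (C : Fin c → V)
    (y : (Option V × Option V) ⊕ (Fin c × Option V) → K) : CA V c J → K :=
  Sum.elim (Sum.elim (Sum.elim (fun p => MM y p.1 p.2) (fun p => uu y p.1 p.2))
    (fun l => bb y l.1)) (fun _ => tt y - bb y ⬝ᵥ ((MM y + ind C)⁻¹ *ᵥ bb y))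

/-- the polynomial of `bA` -/
noncomputable def bAP (R : Type) [CommRing R] (c : ℕ) (J : Finset V) (l : V) :
    MvPolynomial (CA V c J) R :=
  if h : l ∈ J then X (Sum.inl (Sum.inr ⟨l, h⟩)) else 0

theorem bAP_eq (J : Finset V) {K : Type} [Field K] [Algebra R K] (x : CA V c J → K) (l : V) :
    bA x l = aeval x (bAP R c J l) := by
  unfold bA ez bAP
  split_ifs <;> simp

theorem stepA {P : Sch R → Prop} (hK : Kit P) (G : SimpleGraph V) (C : Fin c → V) (τ : V → ℕ)
    (J : Finset V) (hJ : ∀ l ∈ J, τ l = 0) (hQ : Q P (FlagFam R G C τ))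
    (hR : Rep (FlagFam R (ext G J) (fun b => some (C b)) (fun o => o.elim 0 τ))) :
    Q P (fun K _ _ y => FlagFam R (ext G J) (fun b => some (C b)) (fun o => o.elim 0 τ) K y ∧
      aeval y (eP R C) ≠ 0) := by
  have hQ1 := (hK.line (τ := J) (FlagFam R G C τ)).2 hQ
  have hQ2 := (hK.torus (τ := Unit) _).2 hQ1
  refine kit_iso hK (fun K _ _ x => fA C x) (fun K _ _ y => gA J C y) ?_ ?_ ?_ ?_ ?_ ?_ hQ2
    (rep_and hR (rep_ne _))
  · have hb : ∀ l, Rg (R := R) (fun K _ _ (x : CA V c J → K) =>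
        (FlagFam R G C τ K fun s => x (Sum.inl (Sum.inl s))) ∧ ∀ t, x (Sum.inr t) ≠ 0)
        (fun K _ _ x => bA x l) := fun l => rg_of (bAP R c J l) fun K _ _ x _ => bAP_eq J x l
    rintro (⟨_ | i, _ | j⟩ | ⟨a, _ | l⟩)
    · refine rg_add (rg_X _) (rg_sum _ fun l => rg_mul (hb l) ?_)
      refine rg_inv (Matrix.of (fun i j => X (Sum.inl (Sum.inl (Sum.inl (i, j))))) + ind C)
        (fun l => bAP R c J l) (fun K _ _ x => mA x + ind C) (fun K _ _ x => bA x) ?_ ?_ ?_ l
      · intro K _ _ x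
        rw [det_add_ind_map]; rfl
      · intro K _ _ x
        funext l
        exact bAP_eq J x l
      · rintro K _ _ x ⟨⟨⟨_, _, _, h⟩, _⟩, _⟩
        exact h
    · exact hb j
    · exact hb i
    · exact rg_X _
    · exact rg_zero
    · exact rg_X _
  · rintro (((⟨i, j⟩ | ⟨a, l⟩) | l) | ⟨⟩)
    · exact rg_X _
    · exact rg_X _
    · exact rg_X _
    · have h1 : Rg (R := R) (fun K _ _ (y : (Option V × Option V) ⊕ (Fin c × Option V) → K) =>
          FlagFam R (ext G J) (fun b => some (C b)) (fun o => o.elim 0 τ) K y ∧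
          aeval y (eP R C) ≠ 0) (fun K _ _ y => tt y + - ∑ l, bb y l *
            ((MM y + ind C)⁻¹ *ᵥ bb y) l) := by
        refine rg_add (rg_X _) (rg_neg (rg_sum _ fun l => rg_mul (rg_X _) ?_))
        refine rg_inv (Matrix.of (fun i j => X (Sum.inl (some i, some j))) + ind C)
          (fun l => X (Sum.inl (none, some l))) (fun K _ _ x => MM x + ind C)
          (fun K _ _ x => bb x) ?_ ?_ ?_ l
        · intro K _ _ x
          rw [det_add_ind_map]; rfl
        · intro K _ _ x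
          funext l
          simp [bb]
        · rintro K _ _ x ⟨_, h⟩
          rwa [aeval_eP] at h
      refine rg_congr (fun K _ _ y _ => ?_) h1
      change tt y - bb y ⬝ᵥ ((MM y + ind C)⁻¹ *ᵥ bb y) = _
      rw [sub_eq_add_neg]
      rfl
  · rintro K _ _ x ⟨⟨⟨hp, hm, hd, hdet⟩, hf⟩, hx⟩
    have hdet' : (mA x + ind C).det ≠ 0 := hdet
    refine ⟨(flag_ext_iff R G C τ J hJ _).2 ⟨rfl, ⟨?_, hp, hm, hd, hf⟩, ?_⟩, ?_⟩
    · intro l hl
      change bA x l = 0
      simp [bA, ez, hl]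
    · change (bord _ (bA x) (mA x + ind C)).det ≠ 0
      rw [bord_nonsing hdet']
      change x (Sum.inr ()) + _ - _ ≠ 0
      rw [add_sub_cancel_right]
      exact hx ()
    · rw [aeval_eP]
      exact hdet'
  · rintro K _ _ y ⟨h1, h2⟩
    rw [aeval_eP] at h2
    obtain ⟨_, h4, h5⟩ := (flag_ext_iff R G C τ J hJ y).1 h1
    refine ⟨⟨⟨h4.pat, h4.mu, h4.del, h2⟩, h4.flg⟩, fun _ => ?_⟩
    exact (bord_nonsing h2).1 h5
  · rintro K _ _ x ⟨_, _⟩
    funext s
    rcases s with ((⟨i, j⟩ | ⟨a, l⟩) | l) | ⟨⟩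
    · rfl
    · rfl
    · change ez J (fun l => x (Sum.inl (Sum.inr l))) l.1 = _
      simp [ez]
    · change x (Sum.inr ()) + _ - _ = _
      exact add_sub_cancel_right _ _
  · rintro K _ _ y ⟨h1, h2⟩
    obtain ⟨h3, h4, h5⟩ := (flag_ext_iff R G C τ J hJ y).1 h1
    have hb : bA (gA J C y) = bb y := by
      funext l
      unfold bA ez
      by_cases hl : l ∈ J
      · rw [dif_pos hl]; rfl
      · rw [dif_neg hl, h4.b0 l hl]
    conv_rhs => rw [h3]
    change pt (tt y - bb y ⬝ᵥ ((MM y + ind C)⁻¹ *ᵥ bb y) +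
      bA (gA J C y) ⬝ᵥ ((MM y + ind C)⁻¹ *ᵥ bA (gA J C y))) (bA (gA J C y)) (MM y) (uu y) = _
    rw [hb, sub_add_cancel]

end stepA

section stepB

variable {R : Type} [CommRing R] {V : Type} [Fintype V] [DecidableEq V] {c : ℕ}

noncomputable def fB {K : Type} [Field K] (C : Fin c → V)
    (y : (Option V × Option V) ⊕ (Fin c × Option V) → K) : CL V c ⊕ Unit → K :=
  Sum.elim (Sum.elim (Sum.elim (Sum.elim (fun p => MM y p.1 p.2) (fun p => uu y p.1 p.2))
    (fun l => ((MM y + ind C + vecMulVec (bb y) (bb y))⁻¹ *ᵥ bb y) l)) (bb y)) (fun _ => tt y)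

noncomputable def gB {K : Type} [Field K] (x : CL V c ⊕ Unit → K) :
    (Option V × Option V) ⊕ (Fin c × Option V) → K :=
  pt (x (Sum.inr ())) (bL fun s => x (Sum.inl s)) (mL fun s => x (Sum.inl s))
    (uL fun s => x (Sum.inl s))

theorem stepB {P : Sch R → Prop} (hK : Kit P) (G : SimpleGraph V) (C : Fin c → V) (τ : V → ℕ)
    (J : Finset V) (hJ : ∀ l ∈ J, τ l = 0)
    (hQ : Q P (fun K _ _ y =>
      FlagFam R (ext G J) (fun b => some (C b)) (fun o => o.elim 0 τ) K y ∧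
      aeval y (eP R C) = 0)) :
    Q P (PairFam (LineFam R G C τ) J) := by
  refine (hK.line (τ := Unit) _).1 ?_
  refine kit_iso hK (fun K _ _ y => fB C y) (fun K _ _ x => gB x) ?_ ?_ ?_ ?_ ?_ ?_ hQ
    (rep_comp Sum.inl (rep_line G C τ J))
  · rintro ((((⟨i, j⟩ | ⟨a, l⟩) | l) | l) | ⟨⟩)
    · exact rg_X _
    · exact rg_X _
    · refine rg_inv (Matrix.of (fun i j => X (Sum.inl (some i, some j))) + ind C +
          vecMulVec (fun l => X (Sum.inl (none, some l))) (fun l => X (Sum.inl (none, some l))))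
          (fun l => X (Sum.inl (none, some l)))
          (fun K _ _ x => MM x + ind C + vecMulVec (bb x) (bb x))
          (fun K _ _ x => bb x) ?_ ?_ ?_ l
      · intro K _ _ x
        rw [map_add, det_add_ind_map]
        congr 1
        ext i j
        simp [vecMulVec_apply, bb]
      · intro K _ _ x
        funext l
        simp [bb]
      · rintro K _ _ y ⟨h1, h2⟩
        rw [aeval_eP] at h2
        obtain ⟨h3, h4, h5⟩ := (flag_ext_iff R G C τ J hJ y).1 h1
        obtain ⟨v, h6, h7, h8⟩ := line_of_bord h5 h2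
        exact line_det (D_sym h4.pat.1) h6 h7 h8
    · exact rg_X _
    · exact rg_X _
  · rintro (⟨_ | i, _ | j⟩ | ⟨a, _ | l⟩)
    · exact rg_X _
    · exact rg_X _
    · exact rg_X _
    · exact rg_X _
    · exact rg_zero
    · exact rg_X _
  · rintro K _ _ y ⟨h1, h2⟩
    rw [aeval_eP] at h2
    obtain ⟨h3, h4, h5⟩ := (flag_ext_iff R G C τ J hJ y).1 h1
    obtain ⟨v, h6, h7, h8⟩ := line_of_bord h5 h2
    have h9 := line_det (D_sym h4.pat.1) h6 h7 h8
    have h10 := line_inv h6 h7 h9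
    obtain ⟨h11, h12⟩ := ker_D h4.pat.1 h4.mu h4.del v h6
    have hv : vL (fun s => fB C y (Sum.inl s)) = v := h10.symm
    refine (ldat_iff G C τ J _).2 ⟨⟨h4.b0, h4.pat, h4.mu, h4.del, h4.flg, ?_, ?_, ?_⟩, h9⟩
    · rw [hv]; exact h12
    · rw [hv]; exact h11
    · rw [hv]; exact h7
  · rintro K _ _ x hx
    obtain ⟨h1, h2⟩ := (line_iff G C τ J _).1 hx
    have h3 := D_of_ker h1.mv h1.vC
    refine ⟨(flag_ext_iff R G C τ J hJ _).2 ⟨rfl, ⟨h1.b0, h1.pat, h1.mu, h1.del, h1.flg⟩, ?_⟩, ?_⟩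
    · exact bord_det_of_line (D_sym h1.pat.1) h3 h1.bv h2
    · rw [aeval_eP]
      exact det_zero_of_ker h3 (ne_zero_of_dot h1.bv)
  · rintro K _ _ y ⟨h1, h2⟩
    obtain ⟨h3, h4, h5⟩ := (flag_ext_iff R G C τ J hJ y).1 h1
    exact h3.symm
  · rintro K _ _ x hx
    obtain ⟨h1, h2⟩ := (ldat_iff G C τ J _).1 hx
    funext s
    rcases s with (((⟨i, j⟩ | ⟨a, l⟩) | l) | l) | ⟨⟩
    · rfl
    · rfl
    · exact (congrFun (line_inv (D_of_ker h1.mv h1.vC) h1.bv h2) l).symm
    · rfl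
    · rfl

end stepB

theorem t_PCut : PCut := by
  intro R _ P hK V _ _ c G C τ J hC hJ hQ hQ'
  exact stepB hK G C τ J hJ (hK.closed _ _ hQ' (stepA hK G C τ J hJ hQ (rep_of_Q hQ')))

end Run7.h646.GH
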