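import Pool.Agent.Run7.h570.GH.Iface

/-!
# Graph hypersurfaces, piece `PCut`: the calculus of `Rep` and `Rg`, bordered matrices
-/

set_option autoImplicit false
set_option linter.unusedVariables false
set_option linter.unusedSectionVars false

open CategoryTheory AlgebraicGeometry MvPolynomial Pool.Agent.Y116.UV Pool.Agent.Z125.UN
  Pool.Agent.Q282.UZ

namespace Run7.h646.GH

open Run7.h570.GH

section rep

variable {R : Type} [CommRing R] {σ : Type}

theorem rep_eq (p : MvPolynomial σ R) : Rep (R := R) (fun K _ _ x => aeval x p = 0) :=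
  ⟨Unit, fun _ => p, 1, by intro K _ _ x; simp⟩

theorem rep_ne (p : MvPolynomial σ R) : Rep (R := R) (fun K _ _ x => aeval x p ≠ 0) :=
  ⟨Empty, Empty.elim, p, by intro K _ _ x; simp⟩

theorem rep_true : Rep (R := R) (σ := σ) (fun K _ _ _ => True) :=
  ⟨Empty, Empty.elim, 1, by intro K _ _ x; simp⟩

theorem rep_congr {A B : Fam R σ}
    (h : ∀ (K : Type) [Field K] [Algebra R K] (x : σ → K), A K x ↔ B K x) (hA : Rep A) : Rep B := by
  obtain ⟨κ, G, w, hw⟩ := hA
  exact ⟨κ, G, w, fun K _ _ x => (h K x).symm.trans (hw K x)⟩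

theorem rep_and {A B : Fam R σ} (hA : Rep A) (hB : Rep B) :
    Rep (R := R) (fun K _ _ x => A K x ∧ B K x) := by
  obtain ⟨κ, G, w, hw⟩ := hA
  obtain ⟨κ', G', w', hw'⟩ := hB
  refine ⟨κ ⊕ κ', Sum.elim G G', w * w', fun K _ _ x => ?_⟩
  change A K x ∧ B K x ↔ _
  rw [hw K x, hw' K x]
  simp only [Sum.forall, Sum.elim_inl, Sum.elim_inr, map_mul, mul_ne_zero_iff]
  tauto

theorem rep_all {ι : Type} [Finite ι] {A : ι → Fam R σ} (hA : ∀ i, Rep (A i)) :
    Rep (R := R) (fun K _ _ x => ∀ i, A i K x) := by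
  cases nonempty_fintype ι
  choose κ G w hw using hA
  refine ⟨Σ i, κ i, fun s => G s.1 s.2, ∏ i, w i, fun K _ _ x => ?_⟩
  rw [map_prod, Finset.prod_ne_zero_iff]
  constructor
  · intro h
    exact ⟨fun s => ((hw s.1 K x).1 (h s.1)).1 s.2, fun i _ => ((hw i K x).1 (h i)).2⟩
  · rintro ⟨h1, h2⟩ i
    exact (hw i K x).2 ⟨fun k => h1 ⟨i, k⟩, h2 i (Finset.mem_univ i)⟩

theorem rep_imp {A : Fam R σ} (c : Prop) (hA : Rep A) :
    Rep (R := R) (fun K _ _ x => c → A K x) := by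
  by_cases hc : c
  · exact rep_congr (fun K _ _ x => by simp [hc]) hA
  · exact rep_congr (fun K _ _ x => by simp [hc]) rep_true

theorem rep_eqs {F G : Fun R σ} (p q : MvPolynomial σ R)
    (hF : ∀ (K : Type) [Field K] [Algebra R K] (x : σ → K), F K x = aeval x p)
    (hG : ∀ (K : Type) [Field K] [Algebra R K] (x : σ → K), G K x = aeval x q) :
    Rep (R := R) (fun K _ _ x => F K x = G K x) :=
  rep_congr (fun K _ _ x => by rw [hF, hG, map_sub, sub_eq_zero]) (rep_eq (p - q))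

theorem rep_nes {F : Fun R σ} (p : MvPolynomial σ R)
    (hF : ∀ (K : Type) [Field K] [Algebra R K] (x : σ → K), F K x = aeval x p) :
    Rep (R := R) (fun K _ _ x => F K x ≠ 0) :=
  rep_congr (fun K _ _ x => by rw [hF]) (rep_ne p)

theorem rg_of {S : Fam R σ} {F : Fun R σ} (p : MvPolynomial σ R)
    (h : ∀ (K : Type) [Field K] [Algebra R K] (x : σ → K), S K x → F K x = aeval x p) :
    Rg S F :=
  ⟨p, 1, fun K _ _ x hx => by simp [h K x hx]⟩

end rep

section bord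

open Matrix

variable {K V : Type} [Field K] [Fintype V] [DecidableEq V]

/-- the bordered matrix -/
def bord (t : K) (b : V → K) (M : Matrix V V K) : Matrix (Option V) (Option V) K
  | none, none => t
  | none, some l => b l
  | some l, none => b l
  | some i, some j => M i j

theorem bord_none (t : K) (b : V → K) (M : Matrix V V K) (w : Option V → K) :
    (bord t b M *ᵥ w) none = t * w none + b ⬝ᵥ (fun l => w (some l)) := by
  simp only [Matrix.mulVec, dotProduct, Fintype.sum_option, bord]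

theorem bord_some (t : K) (b : V → K) (M : Matrix V V K) (w : Option V → K) (i : V) :
    (bord t b M *ᵥ w) (some i) = b i * w none + (M *ᵥ (fun l => w (some l))) i := by
  simp only [Matrix.mulVec, dotProduct, Fintype.sum_option, bord]

theorem det_ne_iff {W : Type} [Fintype W] [DecidableEq W] (M : Matrix W W K) :
    M.det ≠ 0 ↔ ∀ w, M *ᵥ w = 0 → w = 0 := by
  rw [Ne, ← Matrix.exists_mulVec_eq_zero_iff]
  push Not
  constructor
  · intro h w hw
    by_contra h0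
    exact h w h0 hw
  · intro h w h0 hw
    exact h0 (h w hw)

theorem bord_det_ne_iff (t : K) (b : V → K) (D : Matrix V V K) :
    (bord t b D).det ≠ 0 ↔ ∀ (r : K) (w : V → K), t * r + b ⬝ᵥ w = 0 → r • b + D *ᵥ w = 0 →
      r = 0 ∧ w = 0 := by
  rw [det_ne_iff]
  constructor
  · intro h r w h1 h2
    have h3 := h (fun o => o.elim r w) (by
      funext o
      rcases o with _ | i
      · rw [bord_none]; simpa using h1
      · rw [bord_some]
        have := congrFun h2 i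
        simp only [Pi.add_apply, Pi.smul_apply, smul_eq_mul, Pi.zero_apply] at this
        simp only [Option.elim, Pi.zero_apply]
        rw [mul_comm]; exact this)
    refine ⟨by simpa using congrFun h3 none, funext fun l => by simpa using congrFun h3 (some l)⟩
  · intro h w hw
    have h1 := congrFun hw none
    rw [bord_none] at h1
    have h2 : w none • b + D *ᵥ (fun l => w (some l)) = 0 := by
      funext i
      have := congrFun hw (some i)
      rw [bord_some] at this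
      simp only [Pi.add_apply, Pi.smul_apply, smul_eq_mul]
      rw [mul_comm]; exact this
    obtain ⟨h3, h4⟩ := h _ _ h1 h2
    funext o
    rcases o with _ | i
    · exact h3
    · exact congrFun h4 i

theorem sym_dot {D : Matrix V V K} (hD : ∀ i j, D i j = D j i) (v w : V → K) :
    v ⬝ᵥ (D *ᵥ w) = (D *ᵥ v) ⬝ᵥ w := by
  have hT : Dᵀ = D := by ext i j; exact hD j i
  rw [Matrix.dotProduct_mulVec, ← Matrix.mulVec_transpose, hT]

theorem inv_mul {D : Matrix V V K} (h : D.det ≠ 0) (b : V → K) : D *ᵥ (D⁻¹ *ᵥ b) = b := by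
  rw [Matrix.mulVec_mulVec, Matrix.mul_nonsing_inv _ (isUnit_iff_ne_zero.2 h), Matrix.one_mulVec]

theorem inv_uniq {D : Matrix V V K} (h : D.det ≠ 0) {b v : V → K} (hv : D *ᵥ v = b) :
    v = D⁻¹ *ᵥ b := by
  rw [← hv, Matrix.mulVec_mulVec, Matrix.nonsing_inv_mul _ (isUnit_iff_ne_zero.2 h),
    Matrix.one_mulVec]

/-- (E1) -/
theorem bord_nonsing {t : K} {b : V → K} {D : Matrix V V K} (h : D.det ≠ 0) :
    (bord t b D).det ≠ 0 ↔ t - b ⬝ᵥ (D⁻¹ *ᵥ b) ≠ 0 := by
  rw [bord_det_ne_iff]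
  constructor
  · intro H h0
    have := H 1 (-(D⁻¹ *ᵥ b)) (by
      rw [dotProduct_neg, mul_one]; rw [sub_eq_add_neg] at h0; exact h0)
      (by rw [Matrix.mulVec_neg, inv_mul h]; simp)
    exact one_ne_zero this.1
  · intro H r w h1 h2
    have h3 : w = D⁻¹ *ᵥ (-(r • b)) := inv_uniq h (by
      rw [add_comm] at h2; exact eq_neg_of_add_eq_zero_left h2)
    have h4 : w = -(r • (D⁻¹ *ᵥ b)) := by rw [h3, Matrix.mulVec_neg, Matrix.mulVec_smul]
    have h5 : r = 0 := by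
      rw [h4, dotProduct_neg, dotProduct_smul, smul_eq_mul] at h1
      have : r * (t - b ⬝ᵥ (D⁻¹ *ᵥ b)) = 0 := by linear_combination h1
      exact (mul_eq_zero.1 this).resolve_right H
    refine ⟨h5, ?_⟩
    rw [h4, h5, zero_smul, neg_zero]

theorem vmv (b w : V → K) (D : Matrix V V K) :
    (D + Matrix.vecMulVec b b) *ᵥ w = D *ᵥ w + (b ⬝ᵥ w) • b := by
  rw [Matrix.add_mulVec]
  congr 1
  funext i
  simp only [Matrix.mulVec, dotProduct, Matrix.vecMulVec_apply, Pi.smul_apply, smul_eq_mul,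
    Finset.sum_mul]
  exact Finset.sum_congr rfl fun j _ => by ring

/-- (E3a) -/
theorem line_det {b v : V → K} {D : Matrix V V K} (hs : ∀ i j, D i j = D j i)
    (h1 : D *ᵥ v = 0) (h2 : b ⬝ᵥ v = 1) (h3 : ∀ w, D *ᵥ w = 0 → ∃ t : K, w = t • v) :
    (D + Matrix.vecMulVec b b).det ≠ 0 := by
  rw [det_ne_iff]
  intro w hw
  rw [vmv] at hw
  have h4 : b ⬝ᵥ w = 0 := by
    have h5 : v ⬝ᵥ (D *ᵥ w + (b ⬝ᵥ w) • b) = 0 := by rw [hw]; simp
    rw [dotProduct_add, sym_dot hs, h1, zero_dotProduct, zero_add, dotProduct_smul,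
      dotProduct_comm v b, h2, smul_eq_mul, mul_one] at h5
    exact h5
  rw [h4, zero_smul, add_zero] at hw
  obtain ⟨t, rfl⟩ := h3 w hw
  rw [dotProduct_smul, h2, smul_eq_mul, mul_one] at h4
  rw [h4, zero_smul]

/-- (E3b) -/
theorem line_inv {b v : V → K} {D : Matrix V V K} (h1 : D *ᵥ v = 0) (h2 : b ⬝ᵥ v = 1)
    (h : (D + Matrix.vecMulVec b b).det ≠ 0) : v = (D + Matrix.vecMulVec b b)⁻¹ *ᵥ b :=
  inv_uniq h (by rw [vmv, h1, h2]; simp)

/-- (E4) -/
theorem line_of_det {b v : V → K} {D : Matrix V V K} (h1 : D *ᵥ v = 0) (h2 : b ⬝ᵥ v = 1)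
    (h : (D + Matrix.vecMulVec b b).det ≠ 0) (w : V → K) (hw : D *ᵥ w = 0) :
    w = (b ⬝ᵥ w) • v := by
  have h3 := (det_ne_iff _).1 h (w - (b ⬝ᵥ w) • v) (by
    rw [vmv, Matrix.mulVec_sub, Matrix.mulVec_smul, h1, hw, dotProduct_sub, dotProduct_smul, h2]
    simp)
  exact sub_eq_zero.1 h3

theorem ne_zero_of_dot {b v : V → K} (h2 : b ⬝ᵥ v = 1) : v ≠ 0 := by
  rintro rfl
  simp at h2

theorem det_zero_of_ker {v : V → K} {D : Matrix V V K} (h1 : D *ᵥ v = 0) (h0 : v ≠ 0) :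
    D.det = 0 := by
  rw [← Matrix.exists_mulVec_eq_zero_iff]
  exact ⟨v, h0, h1⟩

/-- (E3c) -/
theorem bord_det_of_line {t : K} {b v : V → K} {D : Matrix V V K} (hs : ∀ i j, D i j = D j i)
    (h1 : D *ᵥ v = 0) (h2 : b ⬝ᵥ v = 1) (h3 : ∀ w, D *ᵥ w = 0 → ∃ t : K, w = t • v) :
    (bord t b D).det ≠ 0 := by
  rw [bord_det_ne_iff]
  intro r w h4 h5
  have h6 : r = 0 := by
    have h7 : v ⬝ᵥ (r • b + D *ᵥ w) = 0 := by rw [h5]; simp
    rw [dotProduct_add, sym_dot hs, h1, zero_dotProduct, add_zero, dotProduct_smul,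
      dotProduct_comm v b, h2, smul_eq_mul, mul_one] at h7
    exact h7
  subst h6
  rw [zero_smul, zero_add] at h5
  rw [mul_zero, zero_add] at h4
  obtain ⟨s, rfl⟩ := h3 w h5
  rw [dotProduct_smul, h2, smul_eq_mul, mul_one] at h4
  refine ⟨rfl, by rw [h4, zero_smul]⟩

/-- (E2) -/
theorem line_of_bord {t : K} {b : V → K} {D : Matrix V V K}
    (h : (bord t b D).det ≠ 0) (h0 : D.det = 0) :
    ∃ v : V → K, D *ᵥ v = 0 ∧ b ⬝ᵥ v = 1 ∧ ∀ w, D *ᵥ w = 0 → ∃ t : K, w = t • v := by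
  rw [← Matrix.exists_mulVec_eq_zero_iff] at h0
  obtain ⟨v, hv, h1⟩ := h0
  rw [bord_det_ne_iff] at h
  have h2 : b ⬝ᵥ v ≠ 0 := by
    intro h3
    exact hv (h 0 v (by rw [h3]; simp) (by rw [h1]; simp)).2
  have h3 : b ⬝ᵥ ((b ⬝ᵥ v)⁻¹ • v) = 1 := by
    rw [dotProduct_smul, smul_eq_mul, inv_mul_cancel₀ h2]
  have h1' : D *ᵥ ((b ⬝ᵥ v)⁻¹ • v) = 0 := by rw [Matrix.mulVec_smul, h1, smul_zero]
  refine ⟨(b ⬝ᵥ v)⁻¹ • v, h1', h3, fun w hw => ⟨b ⬝ᵥ w, ?_⟩⟩
  have h4 := (h 0 (w - (b ⬝ᵥ w) • ((b ⬝ᵥ v)⁻¹ • v)) (by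
    rw [dotProduct_sub, dotProduct_smul, h3]; simp) (by
    rw [Matrix.mulVec_sub, Matrix.mulVec_smul, h1', hw]; simp)).2
  exact sub_eq_zero.1 h4

end bord

end Run7.h646.GH
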