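import Pool.Agent.Run7.h646.GH.Bas

/-!
# Graph hypersurfaces, piece `PCut`: regular functions, the families
-/

set_option autoImplicit false
set_option linter.unusedVariables false
set_option linter.unusedSectionVars false

open CategoryTheory AlgebraicGeometry MvPolynomial Pool.Agent.Y116.UV Pool.Agent.Z125.UN
  Pool.Agent.Q282.UZ

namespace Run7.h646.GH

open Run7.h570.GH Matrix

section rg

variable {R : Type} [CommRing R] {σ : Type}

theorem rg_add {S : Fam R σ} {F H : Fun R σ} (hF : Rg S F) (hH : Rg S H) :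
    Rg S (fun K _ _ x => F K x + H K x) := by
  obtain ⟨n, d, h⟩ := hF
  obtain ⟨n', d', h'⟩ := hH
  refine ⟨n * d' + n' * d, d * d', fun K _ _ x hx => ?_⟩
  obtain ⟨h1, h2⟩ := h K x hx
  obtain ⟨h3, h4⟩ := h' K x hx
  refine ⟨by rw [map_mul]; exact mul_ne_zero h1 h3, ?_⟩
  simp only [map_add, map_mul]
  rw [← h2, ← h4]; ring

theorem rg_mul {S : Fam R σ} {F H : Fun R σ} (hF : Rg S F) (hH : Rg S H) :
    Rg S (fun K _ _ x => F K x * H K x) := by
  obtain ⟨n, d, h⟩ := hF
  obtain ⟨n', d', h'⟩ := hH
  refine ⟨n * n', d * d', fun K _ _ x hx => ?_⟩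
  obtain ⟨h1, h2⟩ := h K x hx
  obtain ⟨h3, h4⟩ := h' K x hx
  refine ⟨by rw [map_mul]; exact mul_ne_zero h1 h3, ?_⟩
  simp only [map_mul]
  rw [← h2, ← h4]; ring

theorem rg_congr {S : Fam R σ} {F H : Fun R σ}
    (h : ∀ (K : Type) [Field K] [Algebra R K] (x : σ → K), S K x → F K x = H K x) (hH : Rg S H) :
    Rg S F := by
  obtain ⟨n, d, h'⟩ := hH
  refine ⟨n, d, fun K _ _ x hx => ?_⟩
  rw [h K x hx]
  exact h' K x hx

theorem rg_poly {S : Fam R σ} (p : MvPolynomial σ R) : Rg S (fun K _ _ x => aeval x p) :=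
  rg_of p fun _ _ _ _ _ => rfl

theorem rg_X {S : Fam R σ} (s : σ) : Rg S (fun K _ _ x => x s) :=
  rg_of (X s) fun _ _ _ _ _ => by simp

theorem rg_zero {S : Fam R σ} : Rg S (fun K _ _ x => 0) :=
  rg_of 0 fun _ _ _ _ _ => by simp

theorem rg_neg {S : Fam R σ} {F : Fun R σ} (hF : Rg S F) :
    Rg S (fun K _ _ x => - F K x) := by
  obtain ⟨n, d, h⟩ := hF
  refine ⟨-n, d, fun K _ _ x hx => ?_⟩
  obtain ⟨h1, h2⟩ := h K x hx
  refine ⟨h1, ?_⟩
  simp only [map_neg]
  rw [← h2]; ring

theorem rg_sum {S : Fam R σ} {ι : Type} (s : Finset ι) {F : ι → Fun R σ} (hF : ∀ i, Rg S (F i)) :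
    Rg S (fun K _ _ x => ∑ i ∈ s, F i K x) := by
  classical
  induction s using Finset.induction_on with
  | empty => simpa using rg_zero
  | insert a s ha ih =>
    have := rg_add (hF a) ih
    simpa only [Finset.sum_insert ha] using this

variable {V : Type} [Fintype V] [DecidableEq V]

theorem map_adj_mulVec {K : Type} [Field K] [Algebra R K] (x : σ → K)
    (A : Matrix V V (MvPolynomial σ R)) (b : V → MvPolynomial σ R) (l : V) :
    aeval x ((A.adjugate *ᵥ b) l) =
      (((aeval x).mapMatrix A).adjugate *ᵥ fun i => aeval x (b i)) l := by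
  rw [← AlgHom.map_adjugate]
  simp only [Matrix.mulVec, dotProduct, map_sum, map_mul, AlgHom.mapMatrix_apply,
    Matrix.map_apply]

theorem rg_inv {S : Fam R σ} (A : Matrix V V (MvPolynomial σ R)) (b : V → MvPolynomial σ R)
    (AK : ∀ (K : Type) [Field K] [Algebra R K], (σ → K) → Matrix V V K)
    (bK : ∀ (K : Type) [Field K] [Algebra R K], (σ → K) → V → K)
    (hA : ∀ (K : Type) [Field K] [Algebra R K] (x : σ → K), AK K x = (aeval x).mapMatrix A)
    (hb : ∀ (K : Type) [Field K] [Algebra R K] (x : σ → K), bK K x = fun i => aeval x (b i))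
    (hS : ∀ (K : Type) [Field K] [Algebra R K] (x : σ → K), S K x → (AK K x).det ≠ 0) (l : V) :
    Rg S (fun K _ _ x => ((AK K x)⁻¹ *ᵥ bK K x) l) := by
  refine ⟨(A.adjugate *ᵥ b) l, A.det, fun K _ _ x hx => ?_⟩
  have h1 := hS K x hx
  have h2 : aeval x A.det = (AK K x).det := by rw [hA, AlgHom.map_det]
  refine ⟨by rw [h2]; exact h1, ?_⟩
  change ((AK K x)⁻¹ *ᵥ bK K x) l * _ = _
  rw [h2, map_adj_mulVec, ← hA, ← hb, Matrix.inv_def, Matrix.smul_mulVec, Pi.smul_apply,
    smul_eq_mul, Ring.inverse_eq_inv']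
  field_simp

theorem ind_map {c : ℕ} (C : Fin c → V) {K : Type} [Field K] [Algebra R K] (x : σ → K) :
    (aeval x).mapMatrix (ind C : Matrix V V (MvPolynomial σ R)) = ind C := by
  classical
  unfold ind
  rw [AlgHom.mapMatrix_apply, Matrix.diagonal_map (map_zero _)]
  congr 1
  funext l
  by_cases h : l ∈ Set.range C <;> simp [h]

theorem det_add_ind_map {c : ℕ} (C : Fin c → V) {K : Type} [Field K] [Algebra R K] (x : σ → K)
    (m : V → V → σ) :
    (aeval x).mapMatrix (Matrix.of (fun i j => (X (m i j) : MvPolynomial σ R)) + ind C) =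
      Matrix.of (fun i j => x (m i j)) + ind C := by
  rw [map_add, ind_map]
  congr 1
  ext i j
  simp

end rg

section kit

variable {R : Type} [CommRing R] {P : Sch R → Prop}

theorem kit_iso (hK : Kit P) {σ τ : Type} [Finite σ] [Finite τ] {S : Fam R σ} {T : Fam R τ}
    (f : ∀ (K : Type) [Field K] [Algebra R K], (σ → K) → τ → K)
    (g : ∀ (K : Type) [Field K] [Algebra R K], (τ → K) → σ → K)
    (h1 : ∀ t, Rg S fun K _ _ x => f K x t) (h2 : ∀ s, Rg T fun K _ _ y => g K y s)
    (h3 : ∀ (K : Type) [Field K] [Algebra R K] (x : σ → K), S K x → T K (f K x))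
    (h4 : ∀ (K : Type) [Field K] [Algebra R K] (y : τ → K), T K y → S K (g K y))
    (h5 : ∀ (K : Type) [Field K] [Algebra R K] (x : σ → K), S K x → g K (f K x) = x)
    (h6 : ∀ (K : Type) [Field K] [Algebra R K] (y : τ → K), T K y → f K (g K y) = y)
    (hQ : Q P S) (hT : Rep T) : Q P T := by
  obtain ⟨κ, G, w, hw⟩ := hT
  exact ⟨κ, G, w, hw, hK.iso S T f g h1 h2 h3 h4 h5 h6 hQ G w hw⟩

theorem rep_of_Q {σ : Type} {S : Fam R σ} (hQ : Q P S) : Rep S := by
  obtain ⟨κ, G, w, hw, _⟩ := hQ
  exact ⟨κ, G, w, hw⟩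

end kit

section pts

variable {V : Type} [Fintype V] [DecidableEq V] {c : ℕ} {K : Type}

/-- the point of the matrix `N` -/
def tt (y : (Option V × Option V) ⊕ (Fin c × Option V) → K) : K := y (Sum.inl (none, none))

def bb (y : (Option V × Option V) ⊕ (Fin c × Option V) → K) : V → K :=
  fun l => y (Sum.inl (none, some l))

def MM (y : (Option V × Option V) ⊕ (Fin c × Option V) → K) : Matrix V V K :=
  Matrix.of fun i j => y (Sum.inl (some i, some j))

def uu (y : (Option V × Option V) ⊕ (Fin c × Option V) → K) : Fin c → V → K :=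
  fun a l => y (Sum.inr (a, some l))

variable [Field K]

/-- the point with given data -/
def pt (t : K) (b : V → K) (M : Matrix V V K) (u : Fin c → V → K) :
    (Option V × Option V) ⊕ (Fin c × Option V) → K :=
  Sum.elim (fun p => bord t b M p.1 p.2) (fun p => p.2.elim 0 fun l => u p.1 l)

@[simp] theorem tt_pt (t : K) (b : V → K) (M : Matrix V V K) (u : Fin c → V → K) :
    tt (pt t b M u) = t := rfl

@[simp] theorem bb_pt (t : K) (b : V → K) (M : Matrix V V K) (u : Fin c → V → K) :
    bb (pt t b M u) = b := rfl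

@[simp] theorem MM_pt (t : K) (b : V → K) (M : Matrix V V K) (u : Fin c → V → K) :
    MM (pt t b M u) = M := rfl

@[simp] theorem uu_pt (t : K) (b : V → K) (M : Matrix V V K) (u : Fin c → V → K) :
    uu (pt t b M u) = u := rfl

theorem bord_add_ind (t : K) (b : V → K) (M : Matrix V V K) (C : Fin c → V) :
    bord t b M + ind (fun b => some (C b)) = bord t b (M + ind C) := by
  classical
  ext o o'
  rcases o with _ | i <;> rcases o' with _ | j <;>
    simp [bord, ind, Matrix.diagonal_apply, Set.mem_range, Matrix.add_apply]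

/-- the data of a point of the family of the extended graph -/
structure Dat (G : SimpleGraph V) (C : Fin c → V) (τ : V → ℕ) (J : Finset V) (t : K) (b : V → K)
    (M : Matrix V V K) (u : Fin c → V → K) : Prop where
  b0 : ∀ l, l ∉ J → b l = 0
  pat : Pat G M
  mu : ∀ a, Matrix.mulVec M (u a) = 0
  del : ∀ a b, u a (C b) = if a = b then 1 else 0
  flg : Flg τ u

theorem flag_ext_iff (R : Type) [CommRing R] [Algebra R K] (G : SimpleGraph V) (C : Fin c → V)
    (τ : V → ℕ) (J : Finset V) (hJ : ∀ l ∈ J, τ l = 0)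
    (y : (Option V × Option V) ⊕ (Fin c × Option V) → K) :
    FlagFam R (ext G J) (fun b => some (C b)) (fun o => o.elim 0 τ) K y ↔
      y = pt (tt y) (bb y) (MM y) (uu y) ∧ Dat G C τ J (tt y) (bb y) (MM y) (uu y) ∧
        (bord (tt y) (bb y) (MM y + ind C)).det ≠ 0 := by
  constructor
  · rintro ⟨⟨⟨hs, hp⟩, hm, hd, hdet⟩, hf1, hf2⟩
    have hy0 : ∀ a, y (Sum.inr (a, none)) = 0 := fun a => hf1 a none (Nat.succ_pos _)
    have hy : y = pt (tt y) (bb y) (MM y) (uu y) := by
      funext s
      rcases s with ⟨o, o'⟩ | ⟨a, o⟩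
      · rcases o with _ | i <;> rcases o' with _ | j
        · rfl
        · rfl
        · exact hs (some i) none
        · rfl
      · rcases o with _ | l
        · exact hy0 a
        · rfl
    have hN : mt y = bord (tt y) (bb y) (MM y) := by
      funext o o'
      exact congrFun hy (Sum.inl (o, o'))
    refine ⟨hy, ⟨?_, ⟨?_, ?_⟩, ?_, ?_, ?_, ?_⟩, ?_⟩
    · intro l hl
      exact hp none (some l) (by simp) (fun h => hl h)
    · intro i j
      exact hs (some i) (some j)
    · intro i j hij hG
      exact hp (some i) (some j) (fun h => hij (Option.some_injective _ h)) (fun h => hG h)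
    · intro a
      funext i
      have := congrFun (hm a) (some i)
      rw [hN, bord_some] at this
      have h0 : vc y a none = 0 := hy0 a
      rw [h0, mul_zero, zero_add] at this
      exact this
    · intro a b
      exact hd a b
    · intro a l hl
      exact hf1 a (some l) hl
    · intro a l hl
      exact hf2 a (some l) hl
    · rw [← bord_add_ind, ← hN]
      exact hdet
  · rintro ⟨hy, ⟨hb0, ⟨hs, hp⟩, hm, hd, hf1, hf2⟩, hdet⟩
    have hN : mt y = bord (tt y) (bb y) (MM y) := by
      funext o o'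
      exact congrFun hy (Sum.inl (o, o'))
    have hy0 : ∀ a, vc y a none = 0 := fun a => congrFun hy (Sum.inr (a, none))
    refine ⟨⟨⟨?_, ?_⟩, ?_, ?_, ?_⟩, ?_, ?_⟩
    · rw [hN]
      rintro (_ | i) (_ | j)
      · rfl
      · rfl
      · rfl
      · exact hs i j
    · rw [hN]
      rintro (_ | i) (_ | j) hij hG
      · exact absurd rfl hij
      · exact hb0 j (fun h => hG h)
      · exact hb0 i (fun h => hG h)
      · exact hp i j (fun h => hij (by rw [h])) (fun h => hG h)
    · intro a
      rw [hN]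
      funext o
      rcases o with _ | i
      · rw [bord_none, hy0, mul_zero, zero_add]
        refine Finset.sum_eq_zero fun l _ => ?_
        by_cases hl : l ∈ J
        · have : vc y a (some l) = 0 := hf1 a l (by rw [hJ l hl]; exact Nat.succ_pos _)
          change bb y l * vc y a (some l) = 0
          rw [this, mul_zero]
        · rw [hb0 l hl, zero_mul]
      · rw [bord_some, hy0, mul_zero, zero_add]
        exact congrFun (hm a) i
    · intro a b
      exact hd a b
    · rw [hN, bord_add_ind]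
      exact hdet
    · rintro a (_ | l) hl
      · exact hy0 a
      · exact hf1 a l hl
    · rintro a (_ | l) hl
      · simp at hl
      · exact hf2 a l hl

end pts

end Run7.h646.GH
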